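import Pool.Agent.N436.DF.Stm2
import Pool.Agent.N436.DF.All

/-!
# The vertex `w` (DG/7, project DF)
-/

set_option autoImplicit false

namespace Pool.Agent.N655.DF

open Finset
open Pool.Agent.N436.DF

variable {V : Type} [DecidableEq V]

omit [DecidableEq V] in
lemma r_nn {P : Par} {H : Hub V} (ok : Ok P H) (x y : V) : 0 ≤ H.r x y := by
  rcases ok.r01 x y with h | h <;> (rw [h]; try norm_num)

lemma load_nn {P : Par} {H : Hub V} (ok : Ok P H) {S : Finset V} {f : V → Bool} {p : V → V → ℤ}
    (hp : ∀ u v, 0 ≤ p u v) (x : V) : 0 ≤ load H S f p x := by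
  unfold load
  refine sum_nonneg fun v _ => ?_
  split_ifs
  · exact r_nn ok _ _
  · exact hp _ _

/-- a neighbour of the right colour is counted -/
lemma nr_ge {P : Par} {H : Hub V} (ok : Ok P H) {X : Finset V} {f : V → Bool} {i : Bool} {u w : V}
    (hu : u ∈ X) (hf : f u = i) (hr : H.r u w = 1) : 1 ≤ nr H X f i w := by
  unfold nr
  rw [← hr]
  exact single_le_sum (f := fun x => H.r x w) (fun x _ => r_nn ok x w) (mem_filter.2 ⟨hu, hf⟩)

omit [DecidableEq V] in
lemma rho_single {P : Par} {H : Hub V} (ok : Ok P H) (w : V) :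
    rho P H {w} = 2 * (P.a * (H.c true w + 1) + P.b * H.c false w) := by
  unfold rho wt ew
  simp only [sum_singleton, ok.r0, ok.m0]
  ring

/-- savings at `w` are smaller than `a` -/
lemma sav_lt (hT : S_T2) {P : Par} {H : Hub V} {S X : Finset V} {u w : V} {f : V → Bool}
    {p : V → V → ℤ} (h : Top2 P H S X u w) (hc : ColBy H X f p) : sav P H X f w < P.a := by
  have h1 := hT V P H S X u w f p h hc
  have h2 := h.mc.hyp S subset_rfl ⟨u, h.sub h.hu⟩
  have h3 := h.le_a
  have h4 := (killRho_h V P H X f h.mc.ok).2.2.1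
  have h5 : sav P H X f w ≤ ∑ v ∈ S \ X, sav P H X f v :=
    single_le_sum (f := fun v => sav P H X f v) (fun v _ => (h4 v).2.2.2.2.2) h.hw
  linarith

theorem leaf2 (hs : S_sav2) (hprop : S_prop2) (hT : S_T2) (hf : S_force12) : S_leaf2 := by
  intro V _ P H S X u w f p h hne hc hfu
  have ok := h.mc.ok
  have hb := P.hb
  have hd := P.hd
  have hab := P.hab
  have hDa := P.hDa
  have hD1 := P.hD1
  have hD2 := P.hD2
  obtain ⟨okK, hrhoK, hnn, -⟩ := killRho_h V P H X f ok
  obtain ⟨n1, n2, p1, p2, -, -⟩ := hnn w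
  obtain ⟨s1, -, -, -⟩ := hs V P H X f w ok
  have hsw := sav_lt hT h hc
  have hn1 := nr_ge ok h.hu hfu h.huw
  have hs1 := s1 hn1
  have hc1 := ok.c1_le w
  -- the first four claims
  have hn1' : nr H X f true w = 1 := by
    by_contra hcon
    have h2 : 2 ≤ nr H X f true w := by omega
    nlinarith [mul_nonneg (show (0 : ℤ) ≤ P.d by linarith) p1,
      mul_nonneg (show (0 : ℤ) ≤ P.a by linarith) p2,
      mul_le_mul_of_nonneg_left h2 (show (0 : ℤ) ≤ P.D by linarith),
      mul_le_mul_of_nonneg_left (show H.c true w + 1 ≤ P.j + 1 by linarith)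
        (show (0 : ℤ) ≤ P.a by linarith)]
  have hcj : H.c true w = P.j := by
    by_contra hcon
    have h2 : H.c true w + 1 ≤ P.j := by omega
    rw [hn1'] at hs1
    nlinarith [mul_nonneg (show (0 : ℤ) ≤ P.d by linarith) p1,
      mul_nonneg (show (0 : ℤ) ≤ P.a by linarith) p2,
      mul_le_mul_of_nonneg_left h2 (show (0 : ℤ) ≤ P.a by linarith)]
  have hp2 : pr H X f false w = 0 := by
    by_contra hcon
    have h2 : 1 ≤ pr H X f false w := by omega
    rw [hn1', hcj] at hs1
    nlinarith [mul_nonneg (show (0 : ℤ) ≤ P.d by linarith) p1,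
      mul_le_mul_of_nonneg_left h2 (show (0 : ℤ) ≤ P.a by linarith)]
  have hKt : (kill H X f).c true w = -1 := by
    show (if 0 < nr H X f true w then -1 else _) = -1
    rw [if_pos (by omega)]
  have hprop1 : -(2 * P.b) < rho P (kill H X f) {w} :=
    hprop V P H S X {w} u w f h (singleton_subset_iff.2 h.hw) (singleton_nonempty w)
      (fun h0 => hne h0.symm)
  rw [rho_single okK, hKt] at hprop1
  have hKf : -1 < (kill H X f).c false w := by
    have h2 : -(2 * P.b) < 2 * (P.b * (kill H X f).c false w) := by linarith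
    by_contra hcon
    rw [not_lt] at hcon
    nlinarith
  have hn2 : nr H X f false w = 0 := by
    by_contra hcon
    have h2 : (kill H X f).c false w = -1 := by
      show (if 0 < nr H X f false w then -1 else _) = -1
      rw [if_pos (by omega)]
    omega
  have hKf2 : (kill H X f).c false w = max (-1) (H.c false w - pr H X f true w) := by
    show (if 0 < nr H X f false w then -1 else max (-1) (H.c false w - pr H X f (!false) w)) = _
    rw [if_neg (by omega)]
    rfl
  have hp1 : pr H X f true w ≤ H.c false w := by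
    rw [hKf2] at hKf
    rcases lt_max_iff.1 hKf with h2 | h2
    · omega
    · omega
  -- the capacity of the colour 2
  have hc2 : P.k - 1 ≤ H.c false w := by
    obtain ⟨f2, q2, hcol2, hf2⟩ := hf V P H S X u w u w false h h.hu h.hw (Or.inl h.huw)
    have h2 := nr_ge ok h.hu hf2 h.huw
    have h3 := (hs V P H X f2 w ok).2.1 h2
    have h4 := sav_lt hT h hcol2
    have hdb := h.rng.hdb
    have h5 := mul_le_mul_of_nonneg_left h2 (show (0 : ℤ) ≤ P.D by linarith)
    by_contra hcon
    have h6 : H.c false w + 2 ≤ P.k := by omega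
    have h7 := mul_le_mul_of_nonneg_left h6 (show (0 : ℤ) ≤ P.b by linarith)
    nlinarith
  refine ⟨hn1', hn2, hp2, hcj, hc2, hp1, ?_⟩
  -- no real edge
  intro q hq
  by_contra hwq0
  have hwq : H.r w q = 1 := by
    rcases ok.r01 w q with h2 | h2
    · exact absurd h2 hwq0
    · exact h2
  have hwU := h.hw
  have hwqne : w ≠ q := by
    rintro rfl
    rw [ok.r0] at hwq
    norm_num at hwq
  obtain ⟨ok1, lr1, -, -⟩ := low_h V P (kill H X f) false w okK
  obtain ⟨ok2, lr2, -, -⟩ := low_h V P (low (kill H X f) false w) false q ok1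
  have hwq' : (low (low (kill H X f) false w) false q).r w q = 1 := hwq
  obtain ⟨ok3, dr, -, de, -⟩ := delr_h V P _ w q ok2 hwq'
  -- the system is not colourable
  have hncol : ¬ Col (delr (low (low (kill H X f) false w) false q) w q) (S \ X) := by
    rintro ⟨f2, q2, hcol2⟩
    have hf2 : f2 w = false := by
      by_contra hcon
      have hcon' : f2 w = true := by simpa using hcon
      have h2 := hcol2.cap w hwU
      rw [hcon'] at h2
      have h3 : (delr (low (low (kill H X f) false w) false q) w q).c true w = -1 := by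
        simp only [delr, low, reduceCtorEq, false_and, if_false]
        exact hKt
      rw [h3] at h2
      have h4 := load_nn ok3 (S := S \ X) (f := f2) hcol2.nn w
      linarith
    have h2 := trReal_h V P (kill H X f) (S \ X) false w q f2 q2 okK hwU hq hwq hf2 hcol2
    obtain ⟨f', p', hcol', -⟩ := killCol_h V P H S X f p ok h.sub hc ⟨f2, q2, h2⟩
    exact h.mc.ncol ⟨f', p', hcol'⟩
  have heE : eE (delr (low (low (kill H X f) false w) false q) w q) (S \ X) < eE H S := by
    refine (de (S \ X) hwU hq).trans_le ?_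
    show ∑ u ∈ S \ X, ∑ v ∈ S \ X, H.r u v ≤ ∑ u ∈ S, ∑ v ∈ S, H.r u v
    refine (sum_le_sum fun x _ => sum_le_sum_of_subset_of_nonneg sdiff_subset
      fun y _ _ => r_nn ok x y).trans ?_
    exact sum_le_sum_of_subset_of_nonneg sdiff_subset
      fun x _ _ => sum_nonneg fun y _ => r_nn ok x y
  apply hncol
  refine h.mc.ih1 _ _ ok3 ?_ heE
  intro Y hYU hYne
  by_contra hcon
  rw [not_lt] at hcon
  have hdisj : Disjoint Y X := disjoint_of_subset_left hYU sdiff_disjoint
  have hR := hrhoK Y hdisj
  have l1 := lr1 Y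
  have l2 := lr2 Y
  have l3 := dr Y
  have hkap : kap P false = P.b := rfl
  rw [hkap] at l1 l2
  rw [l3] at hcon
  have hsav0 : 0 ≤ ∑ v ∈ Y, sav P H X f v := sum_nonneg fun v _ => (hnn v).2.2.2.2.2
  have hYS : Y ∪ X ⊆ S := union_subset (hYU.trans sdiff_subset) h.sub
  have hss : X ⊂ Y ∪ X := by
    refine ⟨subset_union_right, fun h0 => ?_⟩
    obtain ⟨z, hz⟩ := hYne
    exact disjoint_left.1 hdisj hz (h0 (mem_union_left _ hz))
  have hpos : RB H S (Y ∪ X) → 0 < rho P (kill H X f) Y := by
    intro hRB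
    have h2 := h.max (Y ∪ X) hss hYS hRB
    linarith
  have hrbw : w ∉ Y → RB H S (Y ∪ X) := by
    intro hwY
    refine ⟨u, mem_union_right _ h.hu, w, ?_, h.huw⟩
    rw [mem_sdiff] at hwU ⊢
    refine ⟨hwU.1, fun h0 => ?_⟩
    rcases mem_union.1 h0 with h1 | h1
    · exact hwY h1
    · exact hwU.2 h1
  have hrbq : w ∈ Y → q ∉ Y → RB H S (Y ∪ X) := by
    intro hwY hqY
    refine ⟨w, mem_union_left _ hwY, q, ?_, hwq⟩
    rw [mem_sdiff] at hq ⊢
    refine ⟨hq.1, fun h0 => ?_⟩
    rcases mem_union.1 h0 with h1 | h1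
    · exact hqY h1
    · exact hq.2 h1
  by_cases hwY : w ∈ Y
  · by_cases hqY : q ∈ Y
    · rw [if_pos ⟨hwY, hqY⟩] at hcon
      rw [if_pos hwY] at l1
      rw [if_pos hqY] at l2
      have hsoft := h.rng.hsoft
      by_cases hYU' : Y = S \ X
      · have h3 : Y ∪ X = S := by
          rw [hYU']
          exact sdiff_union_of_subset h.sub
        rw [h3] at hR
        have h4 := h.mc.hyp S subset_rfl ⟨u, h.sub h.hu⟩
        have h5 := h.le_a
        linarith
      · have h3 := hprop V P H S X Y u w f h hYU hYne hYU'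
        linarith
    · rw [if_neg (fun h0 => hqY h0.2)] at hcon
      rw [if_pos hwY] at l1
      rw [if_neg hqY] at l2
      have h3 := hpos (hrbq hwY hqY)
      linarith
  · rw [if_neg (fun h0 => hwY h0.1)] at hcon
    rw [if_neg hwY] at l1
    have h3 := hpos (hrbw hwY)
    split_ifs at l2
    · linarith
    · linarith

end Pool.Agent.N655.DF
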